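import Pool.Agent.Y63.NV.Stm

/-!
# Project NV: one step of the filtration
-/

set_option autoImplicit false

open scoped Classical Pointwise

noncomputable section

namespace Pool.Agent.Y177.NV

open Pool.Agent.Y63.NV

/-! ### Sums over sets with an action of a `p`-group -/

/-- an invariant function which vanishes at the fixed points has sum zero -/
theorem sum_eq_zero {p : ℕ} [Fact p.Prime] {F : Type} [Field F] [CharP F p] {R X : Type}
    [Group R] [Finite R] (hR : IsPGroup p R) [MulAction R X] [Fintype X] (f : X → F)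
    (hf : ∀ (r : R) (x : X), f (r • x) = f x)
    (h0 : ∀ x : X, (∀ r : R, r • x = x) → f x = 0) : ∑ x, f x = 0 := by
  rw [← Finset.sum_fiberwise (s := Finset.univ)
    (g := fun x => (Quotient.mk'' x : MulAction.orbitRel.Quotient R X))]
  refine Finset.sum_eq_zero fun ω _ => ?_
  induction ω using Quotient.inductionOn' with
  | h x₀ =>
    have h1 : ∀ x ∈ Finset.univ.filter (fun x : X =>
        (Quotient.mk'' x : MulAction.orbitRel.Quotient R X) = Quotient.mk'' x₀), f x = f x₀ := by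
      intro x hx
      rw [Finset.mem_filter] at hx
      have h2 := Quotient.exact' hx.2
      rw [MulAction.orbitRel_apply] at h2
      obtain ⟨r, hr⟩ := h2
      rw [← hr]
      exact hf r x₀
    rw [Finset.sum_congr rfl h1, Finset.sum_const]
    obtain ⟨n, hn⟩ := hR.card_orbit x₀
    have h3 : (Finset.univ.filter (fun x : X =>
        (Quotient.mk'' x : MulAction.orbitRel.Quotient R X) = Quotient.mk'' x₀)).card = p ^ n := by
      rw [← hn, ← Nat.card_eq_finsetCard]
      refine Nat.card_congr (Equiv.subtypeEquivRight fun x => ?_)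
      rw [Finset.mem_filter, Quotient.eq'']
      simp [MulAction.orbitRel_apply]
    rw [h3]
    rcases Nat.eq_zero_or_pos n with hn0 | hn0
    · subst hn0
      have h4 : f x₀ = 0 := by
        apply h0
        intro r
        rw [pow_zero, Nat.card_eq_one_iff_unique] at hn
        have := hn.1
        have h5 := Subsingleton.elim (⟨r • x₀, MulAction.mem_orbit _ _⟩ : MulAction.orbit R x₀)
          ⟨x₀, MulAction.mem_orbit_self _⟩
        exact congrArg Subtype.val h5
      rw [h4, smul_zero]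
    · rw [nsmul_eq_mul, Nat.cast_pow, CharP.cast_eq_zero, zero_pow hn0.ne', zero_mul]

/-! ### Sylow subgroups -/

section

theorem pp_conj {Γ : Type} [Group Γ] (p : ℕ) (h y : Γ) : pp p (h * y * h⁻¹) = h * pp p y * h⁻¹ := by
  unfold pp
  rw [conj_pow]

theorem mem_cent {Γ : Type} [Group Γ] {r x : Γ} :
    r ∈ Subgroup.centralizer ({x} : Set Γ) ↔ r * x = x * r := by
  rw [Subgroup.mem_centralizer_singleton_iff]

variable {p : ℕ} [hp : Fact p.Prime] {Γ : Type} [Group Γ] [Finite Γ]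

/-- a `p`-subgroup of the centraliser which is a Sylow subgroup of its normaliser is a Sylow
subgroup -/
theorem card_cent {H R : Subgroup Γ} {x : Γ} (hR : IsPGroup p R) (hRH : R ≤ H)
    (hx : ∀ r ∈ R, r * x = x * r)
    (hc : (Nat.card ↥(H ⊓ Subgroup.normalizer (R : Set Γ) ⊓
      Subgroup.centralizer {x})).factorization p = (Nat.card R).factorization p) :
    (Nat.card ↥(H ⊓ Subgroup.centralizer {x})).factorization p =
      (Nat.card R).factorization p := by
  have hRC : R ≤ H ⊓ Subgroup.centralizer {x} := by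
    intro r hr
    exact Subgroup.mem_inf.2 ⟨hRH hr, mem_cent.2 (hx r hr)⟩
  refine le_antisymm ?_ ?_
  · by_contra hlt
    push Not at hlt
    obtain ⟨n, hn⟩ := IsPGroup.iff_card.1 hR
    have hfn : (Nat.card R).factorization p = n := by
      rw [hn, hp.out.factorization_pow, Finsupp.single_eq_same]
    rw [hfn] at hlt hc
    have h1 : p ^ (n + 1) ∣ Nat.card ↥(H ⊓ Subgroup.centralizer {x}) :=
      (hp.out.pow_dvd_iff_le_factorization Nat.card_pos.ne').2 hlt
    have h2 : Nat.card ↥(R.subgroupOf (H ⊓ Subgroup.centralizer {x})) = p ^ n := by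
      rw [← hn]
      exact Nat.card_congr (Subgroup.subgroupOfEquivOfLe hRC).toEquiv
    have h3 := Sylow.prime_pow_dvd_card_normalizer h1 h2
    have h4 : Nat.card ↥((Subgroup.normalizer
        ((R.subgroupOf (H ⊓ Subgroup.centralizer {x}) :
          Subgroup ↥(H ⊓ Subgroup.centralizer {x})) : Set _)).map
            (H ⊓ Subgroup.centralizer {x}).subtype) ∣
        Nat.card ↥(H ⊓ Subgroup.normalizer (R : Set Γ) ⊓ Subgroup.centralizer {x}) := by
      apply Subgroup.card_dvd_of_le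
      rintro _ ⟨y, hy, rfl⟩
      refine Subgroup.mem_inf.2 ⟨Subgroup.mem_inf.2 ⟨y.2.1, ?_⟩, y.2.2⟩
      rw [Subgroup.mem_normalizer_iff]
      intro r
      rw [SetLike.mem_coe, Subgroup.mem_normalizer_iff] at hy
      constructor
      · intro hr
        have := (hy ⟨r, hRC hr⟩).1 hr
        exact this
      · intro hr
        have h5 : r ∈ H ⊓ Subgroup.centralizer {x} := by
          have h6 := (H ⊓ Subgroup.centralizer {x}).mul_mem
            ((H ⊓ Subgroup.centralizer {x}).mul_mem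
              ((H ⊓ Subgroup.centralizer {x}).inv_mem y.2) (hRC hr)) y.2
          have h7 : (y : Γ)⁻¹ * ((H ⊓ Subgroup.centralizer {x}).subtype y * r *
            ((H ⊓ Subgroup.centralizer {x}).subtype y)⁻¹) * y = r := by
            rw [Subgroup.subtype_apply]; group
          rwa [h7] at h6
        exact (hy ⟨r, h5⟩).2 hr
    rw [Nat.card_congr (Subgroup.equivMapOfInjective _ _
      (Subgroup.subtype_injective _)).toEquiv.symm] at h4
    have h8 := (hp.out.pow_dvd_iff_le_factorization Nat.card_pos.ne').1 (h3.trans h4)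
    omega
  · exact (Nat.factorization_le_iff_dvd Nat.card_pos.ne' Nat.card_pos.ne').2
      (Subgroup.card_dvd_of_le hRC) p

/-- two elements of `S_R` which are conjugate under `H` are conjugate under the normaliser of `R` -/
theorem conj_of_conj {H R : Subgroup Γ} {x x' h : Γ} (hR : IsPGroup p R) (hRH : R ≤ H)
    (hh : h ∈ H) (hxx : x' = h * x * h⁻¹) (hx : ∀ r ∈ R, r * x = x * r)
    (hx' : ∀ r ∈ R, r * x' = x' * r)
    (hc : (Nat.card ↥(H ⊓ Subgroup.centralizer {x'})).factorization p =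
      (Nat.card R).factorization p) :
    ∃ j ∈ H ⊓ Subgroup.normalizer (R : Set Γ), x' = j * x * j⁻¹ := by
  set K : Subgroup Γ := H ⊓ Subgroup.centralizer {x'} with hK
  set R' : Subgroup Γ := R.map (MulAut.conj h).toMonoidHom with hR'
  have hRK : R ≤ K := by
    intro r hr
    exact Subgroup.mem_inf.2 ⟨hRH hr, mem_cent.2 (hx' r hr)⟩
  have hmem : ∀ r, h * r * h⁻¹ ∈ R' ↔ r ∈ R := by
    intro r
    rw [hR', Subgroup.mem_map]
    constructor
    · rintro ⟨s, hs, hs'⟩
      have : s = r := by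
        have h1 : h * s * h⁻¹ = h * r * h⁻¹ := hs'
        simpa using h1
      rwa [← this]
    · intro hr
      exact ⟨r, hr, rfl⟩
  have hR'K : R' ≤ K := by
    rintro _ ⟨r, hr, rfl⟩
    refine Subgroup.mem_inf.2 ⟨H.mul_mem (H.mul_mem hh (hRH hr)) (H.inv_mem hh), mem_cent.2 ?_⟩
    show h * r * h⁻¹ * x' = x' * (h * r * h⁻¹)
    rw [hxx]
    calc h * r * h⁻¹ * (h * x * h⁻¹) = h * (r * x) * h⁻¹ := by group
      _ = h * (x * r) * h⁻¹ := by rw [hx r hr]
      _ = h * x * h⁻¹ * (h * r * h⁻¹) := by group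
  have hcard : Nat.card R = p ^ (Nat.card K).factorization p := by
    obtain ⟨n, hn⟩ := IsPGroup.iff_card.1 hR
    rw [hc, hn, hp.out.factorization_pow, Finsupp.single_eq_same]
  have h1 : Nat.card ↥(R.subgroupOf K) = p ^ (Nat.card K).factorization p := by
    rw [← hcard]
    exact Nat.card_congr (Subgroup.subgroupOfEquivOfLe hRK).toEquiv
  have h2 : Nat.card ↥(R'.subgroupOf K) = p ^ (Nat.card K).factorization p := by
    rw [← hcard]
    rw [Nat.card_congr (Subgroup.subgroupOfEquivOfLe hR'K).toEquiv]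
    exact Nat.card_congr (Subgroup.equivMapOfInjective _ _ (MulAut.conj h).injective).toEquiv.symm
  obtain ⟨k, hk⟩ := MulAction.exists_smul_eq K (Sylow.ofCard (R'.subgroupOf K) h2)
    (Sylow.ofCard (R.subgroupOf K) h1)
  have hk' : ∀ y : K, k * y * k⁻¹ ∈ R.subgroupOf K ↔ y ∈ R'.subgroupOf K := by
    intro y
    have h3 : (R.subgroupOf K : Subgroup K) = MulAut.conj k • (R'.subgroupOf K) := by
      have h10 : ((k • Sylow.ofCard (R'.subgroupOf K) h2 : Sylow p K) : Subgroup K) =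
          (Sylow.ofCard (R.subgroupOf K) h1 : Sylow p K) := by rw [hk]
      rw [Sylow.coe_subgroup_smul, Sylow.coe_ofCard, Sylow.coe_ofCard] at h10
      exact h10.symm
    rw [h3]
    exact Subgroup.smul_mem_pointwise_smul_iff
  refine ⟨k * h, Subgroup.mem_inf.2 ⟨H.mul_mem k.2.1 hh, ?_⟩, ?_⟩
  · rw [Subgroup.mem_normalizer_iff]
    intro r
    have h4 : (k : Γ) * h * r * (k * h)⁻¹ = k * (h * r * h⁻¹) * (k : Γ)⁻¹ := by group
    rw [h4]
    constructor
    · intro hr
      have h5 := (hk' ⟨h * r * h⁻¹, hR'K ((hmem r).2 hr)⟩).2 ((hmem r).2 hr)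
      exact h5
    · intro hr
      have h6 : h * r * h⁻¹ ∈ K := by
        have h7 := K.mul_mem (K.mul_mem (K.inv_mem k.2) (hRK hr)) k.2
        have h8 : (k : Γ)⁻¹ * (k * (h * r * h⁻¹) * (k : Γ)⁻¹) * k = h * r * h⁻¹ := by group
        rwa [h8] at h7
      exact (hmem r).1 ((hk' ⟨_, h6⟩).1 hr)
  · have h9 : (k : Γ) * x' = x' * k := mem_cent.1 k.2.2
    calc x' = x' * k * (k : Γ)⁻¹ := by group
      _ = k * x' * (k : Γ)⁻¹ := by rw [h9]
      _ = k * h * x * (k * h)⁻¹ := by rw [hxx]; group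

end

/-! ### Linear algebra -/

theorem finrank_eq {F E : Type} [Field F] [AddCommGroup E] [Module F E]
    (T T₂ π : Module.End F E) (V V₂ : Submodule F E) (hT : ∀ v ∈ V, T v ∈ V)
    (hπ : ∀ v ∈ V, π v ∈ V₂) (hs : ∀ w ∈ V₂, ∃ v ∈ V, π v = w) (hk : ∀ v ∈ V, π v = 0 → v = 0)
    (hc : ∀ v ∈ V, π (T v) = T₂ (π v)) (c : F) :
    Module.finrank F ↥(V ⊓ T.maxGenEigenspace c) =
      Module.finrank F ↥(V₂ ⊓ T₂.maxGenEigenspace c) := by
  have hit : ∀ (k : ℕ) (v : E), v ∈ V → ((T - c • (1 : Module.End F E)) ^ k) v ∈ V ∧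
      π (((T - c • (1 : Module.End F E)) ^ k) v) =
        ((T₂ - c • (1 : Module.End F E)) ^ k) (π v) := by
    intro k
    induction k with
    | zero => intro v hv; simpa using hv
    | succ k ih =>
      intro v hv
      have h1 : (T - c • (1 : Module.End F E)) v ∈ V := by
        rw [LinearMap.sub_apply, LinearMap.smul_apply, Module.End.one_apply]
        exact V.sub_mem (hT v hv) (V.smul_mem c hv)
      have h2 : π ((T - c • (1 : Module.End F E)) v) = (T₂ - c • (1 : Module.End F E)) (π v) := by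
        rw [LinearMap.sub_apply, LinearMap.smul_apply, Module.End.one_apply, LinearMap.sub_apply,
          LinearMap.smul_apply, Module.End.one_apply, map_sub, map_smul, hc v hv]
      rw [pow_succ, pow_succ, Module.End.mul_apply, Module.End.mul_apply, ← h2]
      exact ih _ h1
  have hmap : (V ⊓ T.maxGenEigenspace c).map π = V₂ ⊓ T₂.maxGenEigenspace c := by
    apply le_antisymm
    · rintro _ ⟨v, hv, rfl⟩
      obtain ⟨hv1, hv2⟩ := Submodule.mem_inf.1 hv
      refine Submodule.mem_inf.2 ⟨hπ v hv1, ?_⟩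
      rw [Module.End.mem_maxGenEigenspace] at hv2 ⊢
      obtain ⟨k, hk⟩ := hv2
      refine ⟨k, ?_⟩
      rw [← (hit k v hv1).2, hk, map_zero]
    · intro w hw
      obtain ⟨hw1, hw2⟩ := Submodule.mem_inf.1 hw
      obtain ⟨v, hv, rfl⟩ := hs w hw1
      refine ⟨v, Submodule.mem_inf.2 ⟨hv, ?_⟩, rfl⟩
      rw [Module.End.mem_maxGenEigenspace] at hw2 ⊢
      obtain ⟨k, hk'⟩ := hw2
      refine ⟨k, hk _ (hit k v hv).1 ?_⟩
      rw [(hit k v hv).2, hk']
  have hinj : Function.Injective (π.domRestrict (V ⊓ T.maxGenEigenspace c)) := by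
    rw [injective_iff_map_eq_zero]
    rintro ⟨v, hv⟩ h0
    rw [Subtype.ext_iff]
    exact hk v (Submodule.mem_inf.1 hv).1 h0
  rw [← hmap, ← LinearMap.range_domRestrict]
  exact (LinearEquiv.ofInjective _ hinj).finrank_eq

/-! ### The two operators -/

section

variable {p : ℕ} {F : Type} [Field F] {Γ : Type} [Group Γ]

theorem conj_mem_iff {S : Set Γ} {J : Subgroup Γ} (hS : ∀ j ∈ J, ∀ x ∈ S, j * x * j⁻¹ ∈ S)
    {j : Γ} (hj : j ∈ J) (x : Γ) : j * x * j⁻¹ ∈ S ↔ x ∈ S := by
  refine ⟨fun h => ?_, hS j hj x⟩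
  have h1 := hS j⁻¹ (J.inv_mem hj) _ h
  have h2 : j⁻¹ * (j * x * j⁻¹) * j⁻¹⁻¹ = x := by group
  rwa [h2] at h1

theorem Tfun_mem {z θ : Γ → F} {S : Set Γ} {J : Subgroup Γ}
    (hS : ∀ j ∈ J, ∀ x ∈ S, j * x * j⁻¹ ∈ S) (hz : ∀ j ∈ J, ∀ x, z (j * x * j⁻¹) = z x)
    (hθ : ∀ j ∈ J, ∀ x, θ (j * x * j⁻¹) = θ x) : Tfun p z S θ ∈ VS S J := by
  refine ⟨fun x hx => by simp [Tfun, hx], fun j hj x => ?_⟩
  by_cases hx : x ∈ S
  · have hx' := hS j hj x hx
    simp only [Tfun, hx, hx', if_true]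
    rw [← finsum_comp_equiv (MulAut.conj j).toEquiv]
    refine finsum_congr fun g => ?_
    show z (j * g * j⁻¹) * θ (pp p (j * g * j⁻¹ * (j * x * j⁻¹))) = _
    rw [hz j hj, show j * g * j⁻¹ * (j * x * j⁻¹) = j * (g * x) * j⁻¹ by group, pp_conj, hθ j hj]
  · have hx' : j * x * j⁻¹ ∉ S := fun h => hx ((conj_mem_iff hS hj x).1 h)
    simp [Tfun, hx, hx']

/-- restriction to `S` -/
def res (S : Set Γ) : Module.End F (Γ → F) where
  toFun θ := fun x => if x ∈ S then θ x else 0
  map_add' a b := by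
    funext x
    by_cases hx : x ∈ S <;> simp [hx]
  map_smul' c a := by
    funext x
    by_cases hx : x ∈ S <;> simp [hx]

omit [Group Γ] in
theorem res_apply (S : Set Γ) (θ : Γ → F) (x : Γ) :
    res S θ x = if x ∈ S then θ x else 0 := rfl

theorem res_conj {θ : Γ → F} {S : Set Γ} {J : Subgroup Γ}
    (hS : ∀ j ∈ J, ∀ x ∈ S, j * x * j⁻¹ ∈ S) (hθ : ∀ j ∈ J, ∀ x, θ (j * x * j⁻¹) = θ x) {j : Γ}
    (hj : j ∈ J) (x : Γ) : res S θ (j * x * j⁻¹) = res S θ x := by
  rw [res_apply, res_apply, hθ j hj]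
  simp only [conj_mem_iff hS hj]

theorem sum_conj_eq_zero [Fact p.Prime] [CharP F p] [Finite Γ] {R : Subgroup Γ}
    (hR : IsPGroup p R) (f : Γ → F) (hf : ∀ r ∈ R, ∀ x, f (r * x * r⁻¹) = f x)
    (h0 : ∀ x : Γ, (∀ r ∈ R, r * x = x * r) → f x = 0) : ∑ᶠ x, f x = 0 := by
  have := Fintype.ofFinite Γ
  rw [finsum_eq_sum_of_fintype]
  refine @sum_eq_zero p _ F _ _ R Γ _ _ hR
    (MulAction.compHom Γ ((MulAut.conj : Γ →* MulAut Γ).comp R.subtype)) _ f
    (fun r x => hf r r.2 x) fun x hx => h0 x fun r hr => ?_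
  have h1 : r * x * r⁻¹ = x := hx ⟨r, hr⟩
  calc r * x = r * x * r⁻¹ * r := by group
    _ = x * r := by rw [h1]

theorem card_conj {H : Subgroup Γ} {h : Γ} (hh : h ∈ H) (x : Γ) :
    Nat.card ↥(H ⊓ Subgroup.centralizer ({h * x * h⁻¹} : Set Γ)) =
      Nat.card ↥(H ⊓ Subgroup.centralizer ({x} : Set Γ)) := by
  symm
  refine Nat.card_congr (Equiv.subtypeEquiv (MulAut.conj h).toEquiv fun y => ?_)
  show y ∈ H ⊓ _ ↔ h * y * h⁻¹ ∈ H ⊓ _
  rw [Subgroup.mem_inf, Subgroup.mem_inf, mem_cent, mem_cent]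
  refine and_congr ?_ ?_
  · refine ⟨fun hy => H.mul_mem (H.mul_mem hh hy) (H.inv_mem hh), fun hy => ?_⟩
    have h1 := H.mul_mem (H.mul_mem (H.inv_mem hh) hy) hh
    have h2 : h⁻¹ * (h * y * h⁻¹) * h = y := by group
    rwa [h2] at h1
  · have h1 : h * y * h⁻¹ * (h * x * h⁻¹) = h * (y * x) * h⁻¹ := by group
    have h2 : h * x * h⁻¹ * (h * y * h⁻¹) = h * (x * y) * h⁻¹ := by group
    rw [h1, h2, mul_left_inj, mul_right_inj]

theorem orderOf_conj' (h x : Γ) : orderOf (h * x * h⁻¹) = orderOf x := by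
  have := (MulAut.conj h).orderOf_eq x
  rwa [MulAut.conj_apply] at this

end

/-- one step of the filtration by the Sylow `p`-subgroups of the centralisers -/
theorem filta : S_FILTA := by
  intro p _ F _ _ _ Γ _ _ N H z hE c R hR hRH hHN
  set J := H ⊓ Subgroup.normalizer (R : Set Γ) with hJ
  set S := SR p N J R with hS
  have hJH : J ≤ H := inf_le_left
  have hRJ : R ≤ J := le_inf hRH Subgroup.le_normalizer
  -- membership
  have hSJ : ∀ j ∈ J, ∀ x ∈ S, j * x * j⁻¹ ∈ S := by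
    rintro j hj x ⟨h1, h2, h3, h4⟩
    refine ⟨hE.norm j (hJH hj) x h1, by rwa [orderOf_conj'], fun r hr => ?_, ?_⟩
    · have h5 : j⁻¹ * r * j ∈ R := by
        have := (Subgroup.mem_normalizer_iff''.1 (Subgroup.mem_inf.1 hj).2 r).1 hr
        exact this
      have h6 := h3 _ h5
      calc r * (j * x * j⁻¹) = j * (j⁻¹ * r * j * x) * j⁻¹ := by group
        _ = j * (x * (j⁻¹ * r * j)) * j⁻¹ := by rw [h6]
        _ = j * x * j⁻¹ * r := by group
    · rw [card_conj hj]; exact h4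
  have hSC : ∀ h ∈ H, ∀ x ∈ SC p N H R, h * x * h⁻¹ ∈ SC p N H R := by
    rintro h hh x ⟨k, hk, hkx⟩
    refine ⟨k * h⁻¹, H.mul_mem hk (H.inv_mem hh), ?_⟩
    have h1 : k * h⁻¹ * (h * x * h⁻¹) * (k * h⁻¹)⁻¹ = k * x * k⁻¹ := by group
    rw [h1]
    exact hkx
  have hSSC : S ⊆ SC p N H R := fun x hx => ⟨1, H.one_mem, by simpa using hx⟩
  have hcard : ∀ x ∈ S, (Nat.card ↥(H ⊓ Subgroup.centralizer ({x} : Set Γ))).factorization p =
      (Nat.card R).factorization p := fun x hx => card_cent hR hRH hx.2.2.1 hx.2.2.2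
  have hfus : ∀ x ∈ S, ∀ h ∈ H, h * x * h⁻¹ ∈ S → ∃ j ∈ J, h * x * h⁻¹ = j * x * j⁻¹ :=
    fun x hx h hh hx' => conj_of_conj hR hRH hh rfl hx.2.2.1 hx'.2.2.1 (hcard _ hx')
  -- the elements of `SC` which centralise `R` are in `S`
  have hback : ∀ y ∈ N, (∀ r ∈ R, r * y = y * r) → y ∈ SC p N H R → y ∈ S := by
    rintro y hyN hyR ⟨h, hh, hy⟩
    refine ⟨hyN, ?_, hyR, ?_⟩
    · have := hy.2.1
      rwa [orderOf_conj'] at this
    · refine le_antisymm ?_ ?_
      · have h1 := hcard _ hy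
        rw [card_conj hh] at h1
        rw [← h1]
        exact (Nat.factorization_le_iff_dvd Nat.card_pos.ne' Nat.card_pos.ne').2
          (Subgroup.card_dvd_of_le (inf_le_inf_right _ hJH)) p
      · exact (Nat.factorization_le_iff_dvd Nat.card_pos.ne' Nat.card_pos.ne').2
          (Subgroup.card_dvd_of_le (le_inf hRJ fun r hr => mem_cent.2 (hyR r hr))) p
  have hzH : ∀ j ∈ H, ∀ x, z (j * x * j⁻¹) = z x := hE.inv
  have hcent : ∀ j ∈ J, ∀ x, j * x * j⁻¹ ∈ Subgroup.centralizer (R : Set Γ) ↔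
      x ∈ Subgroup.centralizer (R : Set Γ) := by
    have h1 : ∀ j ∈ J, ∀ x ∈ (Subgroup.centralizer (R : Set Γ) : Set Γ),
        j * x * j⁻¹ ∈ (Subgroup.centralizer (R : Set Γ) : Set Γ) := by
      intro j hj x hx
      rw [SetLike.mem_coe, Subgroup.mem_centralizer_iff] at hx ⊢
      intro r hr
      have h5 : j⁻¹ * r * j ∈ R :=
        (Subgroup.mem_normalizer_iff''.1 (Subgroup.mem_inf.1 hj).2 r).1 hr
      have h6 := hx _ h5
      calc r * (j * x * j⁻¹) = j * (j⁻¹ * r * j * x) * j⁻¹ := by group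
        _ = j * (x * (j⁻¹ * r * j)) * j⁻¹ := by rw [h6]
        _ = j * x * j⁻¹ * r := by group
    intro j hj x
    exact conj_mem_iff h1 hj x
  have hcutJ : ∀ j ∈ J, ∀ x, cut z (Subgroup.centralizer (R : Set Γ)) (j * x * j⁻¹) =
      cut z (Subgroup.centralizer (R : Set Γ)) x := by
    intro j hj x
    simp only [cut, hcent j hj x, hzH j (hJH hj) x]
  refine finrank_eq (Top p z (SC p N H R)) (Top p (cut z (Subgroup.centralizer (R : Set Γ))) S)
    (res S) (VS (SC p N H R) H) (VS S J) ?_ ?_ ?_ ?_ ?_ c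
  · intro θ hθ
    exact Tfun_mem hSC hzH hθ.2
  · intro θ hθ
    refine ⟨fun x hx => by rw [res_apply, if_neg hx], fun j hj x => ?_⟩
    exact res_conj hSJ (fun j hj => hθ.2 j (hJH hj)) hj x
  · -- extension
    intro η hη
    have hval : ∀ x h₁ h₂, h₁ ∈ H → h₂ ∈ H → h₁ * x * h₁⁻¹ ∈ S → h₂ * x * h₂⁻¹ ∈ S →
        η (h₁ * x * h₁⁻¹) = η (h₂ * x * h₂⁻¹) := by
      intro x h₁ h₂ hh₁ hh₂ hx₁ hx₂
      have h1 : h₂ * x * h₂⁻¹ = (h₂ * h₁⁻¹) * (h₁ * x * h₁⁻¹) * (h₂ * h₁⁻¹)⁻¹ := by group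
      rw [h1] at hx₂ ⊢
      obtain ⟨j, hj, hj'⟩ := hfus _ hx₁ _ (H.mul_mem hh₂ (H.inv_mem hh₁)) hx₂
      rw [hj', hη.2 j hj]
    have hch : ∀ x ∈ SC p N H R, ∃ h, h ∈ H ∧ h * x * h⁻¹ ∈ S := fun x hx => hx
    choose! κ hκ using hch
    refine ⟨fun x => if x ∈ SC p N H R then η (κ x * x * (κ x)⁻¹) else 0,
      ⟨fun x hx => if_neg hx, fun h hh x => ?_⟩, ?_⟩
    · by_cases hx : x ∈ SC p N H R
      · have hx' := hSC h hh x hx
        simp only [hx, hx', if_true]
        have h1 := hκ _ hx'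
        have h2 := hκ _ hx
        have h3 : κ (h * x * h⁻¹) * (h * x * h⁻¹) * (κ (h * x * h⁻¹))⁻¹ =
            (κ (h * x * h⁻¹) * h) * x * (κ (h * x * h⁻¹) * h)⁻¹ := by group
        have h4 := h1.2
        rw [h3] at h4 ⊢
        exact hval x _ _ (H.mul_mem h1.1 hh) h2.1 h4 h2.2
      · have hx' : h * x * h⁻¹ ∉ SC p N H R := fun h' => hx ((conj_mem_iff hSC hh x).1 h')
        simp only [hx, hx', if_false]
    · funext x
      rw [res_apply]
      by_cases hx : x ∈ S
      · simp only [hx, hSSC hx, if_true]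
        have h2 := hκ _ (hSSC hx)
        have h3 := hval x _ 1 h2.1 H.one_mem h2.2 (by simpa using hx)
        rw [h3, one_mul, inv_one, mul_one]
      · rw [if_neg hx, hη.1 x hx]
  · -- injectivity
    intro θ hθ h0
    funext x
    by_cases hx : x ∈ SC p N H R
    · obtain ⟨h, hh, hx'⟩ := hx
      have h1 := congrFun h0 (h * x * h⁻¹)
      rw [res_apply, if_pos hx', hθ.2 h hh] at h1
      exact h1
    · exact hθ.1 x hx
  · -- the two operators
    intro θ hθ
    funext x
    rw [res_apply]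
    show (if x ∈ S then Tfun p z (SC p N H R) θ x else 0) =
      Tfun p (cut z (Subgroup.centralizer (R : Set Γ))) S (res S θ) x
    by_cases hx : x ∈ S
    · simp only [Tfun, hx, hSSC hx, if_true]
      rw [← sub_eq_zero, ← finsum_sub_distrib (Set.toFinite _) (Set.toFinite _)]
      have hrx : ∀ r ∈ R, ∀ g, r * g * r⁻¹ * x = r * (g * x) * r⁻¹ := by
        intro r hr g
        calc r * g * r⁻¹ * x = r * g * (r⁻¹ * (x * r)) * r⁻¹ := by group
          _ = r * g * (r⁻¹ * (r * x)) * r⁻¹ := by rw [hx.2.2.1 r hr]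
          _ = r * (g * x) * r⁻¹ := by group
      refine sum_conj_eq_zero hR _ (fun r hr g => ?_) fun g hg => ?_
      · rw [hrx r hr, pp_conj, hzH r (hRH hr), hθ.2 r (hRH hr), hcutJ r (hRJ hr),
          res_conj hSJ (fun j hj => hθ.2 j (hJH hj)) (hRJ hr)]
      · have hgC : g ∈ Subgroup.centralizer (R : Set Γ) := by
          rw [Subgroup.mem_centralizer_iff]
          exact hg
        rw [res_apply, cut, if_pos hgC, ← mul_sub]
        by_cases hz : z g = 0
        · rw [hz, zero_mul]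
        · have hgN : g ∈ N := by
            by_contra h'
            exact hz (hE.supp g h')
          by_cases hy : pp p (g * x) ∈ S
          · rw [if_pos hy, sub_self, mul_zero]
          · rw [if_neg hy]
            have h1 : pp p (g * x) ∉ SC p N H R := by
              intro h'
              refine hy (hback _ ?_ ?_ h')
              · exact N.pow_mem (N.mul_mem hgN hx.1) _
              · intro r hr
                have h2 : Commute r (g * x) := Commute.mul_right (hg r hr) (hx.2.2.1 r hr)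
                exact h2.pow_right _
            rw [hθ.1 _ h1, sub_self, mul_zero]
    · simp only [Tfun, hx, if_false]

end Pool.Agent.Y177.NV
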